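import Mathlib
import Pool.Agent.Lib.MP_9ec9ec_co.Defs
import Pool.Agent.Lib.MP_9ec9ec_co.Degree

/-!
For graphs of maximum degree at most `D`, coning increases the crossing number at least by the factor
`1 + (4 D + 2) / (D + 1)²`.
-/

open Pool.ConeX

theorem Pool.Agent.Results.MP_9ec9ec_co.MaxDegree.result {V : Type*} [Fintype V]
    [DecidableEq V] (G : SimpleGraph V) [DecidableRel G.Adj] (D : ℕ) (hD : 3 ≤ D)
    (hdeg : ∀ v, G.degree v ≤ D) :
    (1 + (4 * D + 2) / (D + 1) ^ 2 : ℝ) * (crossingNumber G : ℝ) ≤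
      (crossingNumber (cone G) : ℝ) :=
  cone_degree G D hD hdeg
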