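import Mathlib
import Pool.Agent.Lib.MP_9ec9ec_co.Defs
import Pool.Agent.Lib.MP_9ec9ec_co.Main

/-!
Coning a graph increases its crossing number `k` by at least `k ^ (3/4) / 6560`.

Together with the known upper bound `O(k ^ (3/4))` this determines the order of magnitude of the least
increase `φ(k)`.
-/

open Pool.ConeX

theorem Pool.Agent.Results.MP_9ec9ec_co.ThreeQuarters.result {V : Type*} [Fintype V]
    [DecidableEq V] (G : SimpleGraph V) :
    (crossingNumber G : ℝ) + (1 / 6560) * (crossingNumber G : ℝ) ^ (3 / 4 : ℝ) ≤
      (crossingNumber (cone G) : ℝ) :=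
  cone_crossing G
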