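import Mathlib
import Pool.Agent.Lib.MP_9ec9ec_co.Defs
import Pool.Agent.Lib.MP_9ec9ec_co.UpperPhi

/-!
The upper half of the conjecture `φ(k) = (1 + o(1)) √2 k ^ (3/4)` on the least increase of the crossing number
under coning; the lower half implies the Harary-Hill conjecture asymptotically.
-/

open Pool.ConeX Filter Topology

theorem Pool.Agent.Results.MP_9ec9ec_co.UpperHalf.result : ∃ κ : ℝ, 1 / 120 ≤ κ ∧ κ ≤ 1 / 64 ∧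
    Tendsto (fun n : ℕ => (crossingNumber (⊤ : SimpleGraph (Fin n)) : ℝ) / (n : ℝ) ^ 4) atTop
      (𝓝 κ) ∧
    4 * κ ^ (1 / 4 : ℝ) ≤ √2 ∧
    (∀ ε : ℝ, 0 < ε → ∀ᶠ k : ℕ in atTop, ∃ (n : ℕ) (G : SimpleGraph (Fin n)),
      crossingNumber G = k ∧
      (crossingNumber (cone G) : ℝ) ≤ k + (4 * κ ^ (1 / 4 : ℝ) + ε) * (k : ℝ) ^ (3 / 4 : ℝ)) ∧
    ((∀ ε : ℝ, 0 < ε → ∀ᶠ k : ℕ in atTop, ∀ (n : ℕ) (G : SimpleGraph (Fin n)),
      crossingNumber G = k →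
      k + (√2 - ε) * (k : ℝ) ^ (3 / 4 : ℝ) ≤ (crossingNumber (cone G) : ℝ)) → κ = 1 / 64) :=
  cone_upper
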